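import Pool.Agent.X316.CC.Gen

/-!
# Plane curves parameterised by a section of an elliptic pencil: the equation and its degree
-/

set_option autoImplicit false

open MvPolynomial

namespace Pool.Agent.X316.CC

variable {K : Type*} [Field K]

/-- values at quotients -/
theorem aeval_quot {n m : ℕ} {P : MvPolynomial (Fin n) K} (hP : P.IsHomogeneous m)
    (cc : Fin n → Polynomial K) (c : Polynomial K) (hc : c ≠ 0) :
    algebraMap (Polynomial K) (RatFunc K) (aeval cc P) =
      algebraMap (Polynomial K) (RatFunc K) c ^ m *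
        aeval (fun i => algebraMap (Polynomial K) (RatFunc K) (cc i) /
          algebraMap (Polynomial K) (RatFunc K) c) P := by
  have hc' : algebraMap (Polynomial K) (RatFunc K) c ≠ 0 := by
    rw [Ne, map_eq_zero_iff _ (IsFractionRing.injective (Polynomial K) (RatFunc K))]
    exact hc
  rw [← hom_aeval hP, ← MvPolynomial.aeval_algebraMap_apply]
  congr 1
  congr 1
  funext i
  simp only [Function.comp]
  field_simp

theorem binary_inj [Infinite K] (c1 c2 : Polynomial K) (h2 : c2 ≠ 0)
    (hf : ¬ ∃ c : K, c1 = Polynomial.C c * c2) (Q : MvPolynomial (Fin 2) K)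
    (hQ : Phi ![c1, c2] Q = 0) : Q = 0 := by
  have hc' : algebraMap (Polynomial K) (RatFunc K) c2 ≠ 0 := by
    rw [Ne, map_eq_zero_iff _ (IsFractionRing.injective (Polynomial K) (RatFunc K))]
    exact h2
  set f : RatFunc K := algebraMap (Polynomial K) (RatFunc K) c1 /
    algebraMap (Polynomial K) (RatFunc K) c2 with hfdef
  have htr : Transcendental K f := by
    apply RatFunc.transcendental_of_ne_C
    rintro ⟨c, hc⟩
    apply hf
    refine ⟨c, ?_⟩
    rw [hfdef, div_eq_iff hc', ← RatFunc.algebraMap_C, ← map_mul] at hc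
    exact IsFractionRing.injective (Polynomial K) (RatFunc K) hc
  have hcomp : ∀ m, homogeneousComponent m Q = 0 := by
    intro m
    have h0 : aeval ![c1, c2] (homogeneousComponent m Q) = 0 := by
      rw [← Phi_coeff, hQ, Polynomial.coeff_zero]
    have hh := homogeneousComponent_isHomogeneous m Q
    have h1 := aeval_quot hh ![c1, c2] c2 h2
    rw [h0, map_zero] at h1
    have h3 : aeval ![f, 1] (homogeneousComponent m Q) = 0 := by
      have h4 := (mul_eq_zero.1 h1.symm).resolve_left (pow_ne_zero _ hc')
      rw [← h4]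
      congr 2
      funext i
      fin_cases i
      · rfl
      · simp [div_self hc']
    set q : Polynomial K := aeval ![Polynomial.X, 1] (homogeneousComponent m Q) with hq
    have h5 : Polynomial.aeval f q = 0 := by
      rw [hq, ← h3]
      have : (Polynomial.aeval f).comp (aeval ![(Polynomial.X : Polynomial K), 1] :
          MvPolynomial (Fin 2) K →ₐ[K] Polynomial K) = aeval ![f, 1] := by
        apply MvPolynomial.algHom_ext
        intro i
        fin_cases i <;> simp
      exact congrArg (fun φ : MvPolynomial (Fin 2) K →ₐ[K] RatFunc K =>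
        φ (homogeneousComponent m Q)) this
    have h6 : q = 0 := by
      by_contra hne
      exact htr ⟨q, hne, h5⟩
    apply dehom hh
    intro v hv
    have h7 : eval v (homogeneousComponent m Q) = q.eval (v 0) := by
      have : (Polynomial.aeval (v 0)).comp (aeval ![(Polynomial.X : Polynomial K), 1] :
          MvPolynomial (Fin 2) K →ₐ[K] Polynomial K) = aeval v := by
        apply MvPolynomial.algHom_ext
        intro i
        fin_cases i
        · simp
        · simpa using hv.symm
      have h8 := congrArg (fun φ : MvPolynomial (Fin 2) K →ₐ[K] K =>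
        φ (homogeneousComponent m Q)) this
      simp only [AlgHom.comp_apply] at h8
      rw [← hq, Polynomial.coe_aeval_eq_eval] at h8
      rw [h8]
      rfl
    rw [h7, h6, Polynomial.eval_zero]
  rw [← sum_homogeneousComponent Q]
  exact Finset.sum_eq_zero fun i _ => hcomp i

theorem Phi_finSucc (cc : Fin 3 → Polynomial K) (P : MvPolynomial (Fin 3) K) :
    Phi cc P = (finSuccEquiv K 2 P).eval₂
      ((Phi ![cc 1, cc 2] : MvPolynomial (Fin 2) K →ₐ[K] Polynomial (Polynomial K)) :
        MvPolynomial (Fin 2) K →+* Polynomial (Polynomial K))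
      (Polynomial.X * Polynomial.C (cc 0)) := by
  induction P using MvPolynomial.induction_on with
  | C a =>
    rw [finSuccEquiv_apply]
    simp [Phi]
  | add p q hp hq => rw [map_add, map_add, Polynomial.eval₂_add, hp, hq]
  | mul_X p i hp =>
    rw [map_mul, map_mul, Polynomial.eval₂_mul, hp]
    congr 1
    fin_cases i
    · show Phi cc (X 0) = _
      rw [show ((⟨0, by norm_num⟩ : Fin 3)) = 0 from rfl, finSuccEquiv_X_zero]
      simp [Phi]
    · show Phi cc (X 1) = Polynomial.eval₂ _ _ (finSuccEquiv K 2 (X (Fin.succ 0)))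
      rw [finSuccEquiv_X_succ]
      simp [Phi]
    · show Phi cc (X 2) = Polynomial.eval₂ _ _ (finSuccEquiv K 2 (X (Fin.succ 1)))
      rw [finSuccEquiv_X_succ]
      simp [Phi]

/-- the equation of the curve -/
theorem exists_equation [Infinite K] (cc : Fin 3 → Polynomial K) (h2 : cc 2 ≠ 0)
    (hf : ¬ ∃ c : K, cc 1 = Polynomial.C c * cc 2) (P0 : MvPolynomial (Fin 3) K) (hP0 : P0 ≠ 0)
    (hP0' : Phi cc P0 = 0) :
    ∃ E : MvPolynomial (Fin 3) K, ∃ m, E.IsHomogeneous m ∧ Irreducible E ∧ aeval cc E = 0 ∧
      ∀ (P : MvPolynomial (Fin 3) K) (k : ℕ), P.IsHomogeneous k → aeval cc P = 0 → E ∣ P := by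
  have hI : (RingHom.ker (Phi cc)).IsPrime := RingHom.ker_isPrime _
  have hbot : RingHom.ker (Phi cc) ≠ ⊥ := by
    intro h
    have : P0 ∈ RingHom.ker (Phi cc) := hP0'
    rw [h] at this
    exact hP0 this
  obtain ⟨E, hEI, hEp⟩ := hI.exists_mem_prime_of_ne_bot hbot
  have hE0 : Phi cc E = 0 := hEI
  have hdvd : ∀ P, Phi cc P = 0 → E ∣ P := by
    intro P hP
    have _ : Nonempty (NormalizedGCDMonoid (MvPolynomial (Fin 2) K)) := inferInstance
    let _ : NormalizedGCDMonoid (MvPolynomial (Fin 2) K) := Classical.choice inferInstance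
    have hinj : Function.Injective
        ((Phi ![cc 1, cc 2] : MvPolynomial (Fin 2) K →ₐ[K] Polynomial (Polynomial K)) :
        MvPolynomial (Fin 2) K →+* Polynomial (Polynomial K)) := by
      rw [injective_iff_map_eq_zero]
      intro Q hQ
      exact binary_inj (cc 1) (cc 2) h2 hf Q hQ
    have h1 := ker_principal _ hinj (Polynomial.X * Polynomial.C (cc 0)) (finSuccEquiv K 2 E)
      (finSuccEquiv K 2 P) ((MulEquiv.irreducible_iff (finSuccEquiv K 2)).2 hEp.irreducible)
      (by rw [← Phi_finSucc]; exact hE0) (by rw [← Phi_finSucc]; exact hP)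
    exact (map_dvd_iff (finSuccEquiv K 2)).1 h1
  -- the top homogeneous component
  have hhom : E.IsHomogeneous E.totalDegree := by
    set T := homogeneousComponent E.totalDegree E with hT
    have hTh : T.IsHomogeneous E.totalDegree := homogeneousComponent_isHomogeneous _ _
    have hTne : T ≠ 0 := by
      intro h0
      obtain ⟨d, hd, hdeg⟩ := Finset.exists_mem_eq_sup E.support
        (support_nonempty.2 hEp.ne_zero) (fun s => s.sum fun _ e => e)
      have hdeg' : d.degree = E.totalDegree := hdeg.symm
      have h2 : coeff d T = coeff d E := by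
        rw [hT, coeff_homogeneousComponent, if_pos hdeg']
      rw [h0, coeff_zero] at h2
      exact (mem_support_iff.1 hd) h2.symm
    have hT0 : Phi cc T = 0 := by
      rw [Phi_eq_zero_iff cc hTh, hT, ← Phi_coeff, hE0, Polynomial.coeff_zero]
    obtain ⟨Q, hQ⟩ := hdvd T hT0
    have hQne : Q ≠ 0 := by
      rintro rfl
      exact hTne (by rw [hQ, mul_zero])
    have hdeg : T.totalDegree = E.totalDegree + Q.totalDegree := by
      rw [hQ, totalDegree_mul_of_isDomain hEp.ne_zero hQne]
    have h3 : T.totalDegree = E.totalDegree := hTh.totalDegree hTne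
    have h4 : Q.totalDegree = 0 := by omega
    rw [totalDegree_eq_zero_iff_eq_C] at h4
    have hq0 : Q.coeff 0 ≠ 0 := by
      intro h
      rw [h, C_0] at h4
      exact hQne h4
    have h5 : E = C (Q.coeff 0)⁻¹ * T := by
      rw [hQ]
      conv_rhs => rw [h4]
      rw [coeff_C, if_pos rfl, mul_comm E, ← mul_assoc, ← C_mul, inv_mul_cancel₀ hq0, C_1, one_mul]
    have := (isHomogeneous_C (Fin 3) (Q.coeff 0)⁻¹).mul hTh
    rw [zero_add, ← h5] at this
    exact this
  refine ⟨E, E.totalDegree, hhom, hEp.irreducible, (Phi_eq_zero_iff cc hhom).1 hE0, ?_⟩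
  intro P k hP hP0
  exact hdvd P ((Phi_eq_zero_iff cc hP).2 hP0)

end Pool.Agent.X316.CC
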