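import Pool.Agent.X316.CC.Alg

/-!
# Plane curves parameterised by a section of an elliptic pencil: the degree bound
-/

set_option autoImplicit false

open MvPolynomial IntermediateField

namespace Pool.Agent.X316.CC

variable {K : Type*} [Field K]

/-- the dehomogenisation, as a polynomial in `y` over `K[x]` -/
noncomputable def deh (P : MvPolynomial (Fin 3) K) : Polynomial (Polynomial K) :=
  aeval ![Polynomial.C Polynomial.X, Polynomial.X, 1] P

theorem natDegree_deh {P : MvPolynomial (Fin 3) K} {m : ℕ} (hP : P.IsHomogeneous m) :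
    (deh P).natDegree ≤ m := by
  rw [deh, aeval_def, eval₂_eq]
  refine Polynomial.natDegree_sum_le_of_forall_le _ _ fun d hd => ?_
  have h : d.degree = m := by
    by_contra h
    exact (mem_support_iff.1 hd) (hP.coeff_eq_zero h)
  have h1 : (∏ i ∈ d.support, (![Polynomial.C Polynomial.X, Polynomial.X, 1] :
      Fin 3 → Polynomial (Polynomial K)) i ^ d i) =
      Polynomial.C (Polynomial.X ^ d 0) * Polynomial.X ^ d 1 := by
    rw [Finset.prod_subset (Finset.subset_univ d.support), Fin.prod_univ_three]
    · simp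
    · intro i _ hi
      rw [Finsupp.notMem_support_iff.1 hi, pow_zero]
  rw [h1]
  have h2 : (algebraMap K (Polynomial (Polynomial K))) (coeff d P) =
      Polynomial.C (Polynomial.C (coeff d P)) := rfl
  rw [h2, ← mul_assoc, ← Polynomial.C_mul]
  refine (Polynomial.natDegree_C_mul_X_pow_le _ _).trans ?_
  have h3 : d 1 ≤ d.degree := Finsupp.le_degree 1 d
  omega

theorem denom_natDegree (a c : Polynomial K) (hc : c ≠ 0) (hcop : IsCoprime a c) :
    c.natDegree ≤ (algebraMap (Polynomial K) (RatFunc K) a /
      algebraMap (Polynomial K) (RatFunc K) c).denom.natDegree := by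
  set f : RatFunc K := algebraMap (Polynomial K) (RatFunc K) a /
      algebraMap (Polynomial K) (RatFunc K) c with hf
  have h := (RatFunc.num_mul_eq_mul_denom_iff (x := f) hc).2 hf
  apply Polynomial.natDegree_le_of_dvd _ (RatFunc.denom_ne_zero f)
  have h1 : c ∣ a * f.denom := by rw [← h]; exact Dvd.intro_left _ rfl
  exact (hcop.symm).dvd_of_dvd_mul_left h1

theorem degree_bound [Infinite K] (cc : Fin 3 → Polynomial K) (N : ℕ)
    (hcop : IsCoprime (cc 0) (cc 2)) (hN : 0 < N) (hdeg : N ≤ (cc 2).natDegree)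
    (F1 F2 : MvPolynomial (Fin 3) K) (k : ℕ) (h1 : F1.IsHomogeneous k) (h2 : F2.IsHomogeneous k)
    (hF : aeval cc F1 = Polynomial.X * aeval cc F2) (hF2 : aeval cc F2 ≠ 0)
    (P : MvPolynomial (Fin 3) K) (m : ℕ) (hP : P.IsHomogeneous m) (hm : m < N)
    (h0 : aeval cc P = 0) : P = 0 := by
  have hinj := IsFractionRing.injective (Polynomial K) (RatFunc K)
  have hc : cc 2 ≠ 0 := by
    intro h
    rw [h, Polynomial.natDegree_zero] at hdeg
    omega
  have hc' : algebraMap (Polynomial K) (RatFunc K) (cc 2) ≠ 0 := by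
    rwa [Ne, map_eq_zero_iff _ hinj]
  obtain ⟨w, hw⟩ : ∃ w : Fin 3 → RatFunc K, w = fun i =>
    algebraMap (Polynomial K) (RatFunc K) (cc i) / algebraMap (Polynomial K) (RatFunc K) (cc 2) :=
    ⟨_, rfl⟩
  have hw2 : w 2 = 1 := by rw [hw]; exact div_self hc'
  have hq : ∀ {n : ℕ} {Q : MvPolynomial (Fin 3) K}, Q.IsHomogeneous n →
      algebraMap (Polynomial K) (RatFunc K) (aeval cc Q) =
        algebraMap (Polynomial K) (RatFunc K) (cc 2) ^ n * aeval w Q := by
    intro n Q hQ
    rw [hw]
    exact aeval_quot hQ cc (cc 2) hc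
  have hwP : aeval w P = 0 := by
    have := hq hP
    rw [h0, map_zero] at this
    exact (mul_eq_zero.1 this.symm).resolve_left (pow_ne_zero _ hc')
  have hwF2 : aeval w F2 ≠ 0 := by
    intro h
    have := hq h2
    rw [h, mul_zero] at this
    exact hF2 (hinj (by rw [this, map_zero]))
  have hX : (RatFunc.X : RatFunc K) = aeval w F1 / aeval w F2 := by
    rw [eq_div_iff hwF2]
    have e1 := hq h1
    have e2 := hq h2
    rw [hF, map_mul, e2, RatFunc.algebraMap_X] at e1
    have e3 : algebraMap (Polynomial K) (RatFunc K) (cc 2) ^ k * (RatFunc.X * aeval w F2 - aeval w F1) = 0 := by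
      linear_combination e1
    exact sub_eq_zero.1 ((mul_eq_zero.1 e3).resolve_left (pow_ne_zero _ hc'))
  set f : RatFunc K := w 0 with hfdef
  set g : RatFunc K := w 1 with hgdef
  -- the fields
  have hfin : N ≤ Module.finrank K⟮f⟯ (RatFunc K) := by
    rw [RatFunc.finrank_eq_max_natDegree]
    refine hdeg.trans ((denom_natDegree (cc 0) (cc 2) hc hcop).trans ?_)
    have : f = algebraMap (Polynomial K) (RatFunc K) (cc 0) /
      algebraMap (Polynomial K) (RatFunc K) (cc 2) := by rw [hfdef, hw]
    rw [← this]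
    exact le_max_right _ _
  have hfd : FiniteDimensional K⟮f⟯ (RatFunc K) := FiniteDimensional.of_finrank_pos (by omega)
  have hgint : IsIntegral K⟮f⟯ g := IsIntegral.of_finite _ _
  have htop : K⟮f⟯⟮g⟯ = ⊤ := by
    have hmem : ∀ i, w i ∈ (K⟮f⟯⟮g⟯).restrictScalars K := by
      intro i
      rw [mem_restrictScalars]
      fin_cases i
      · exact (K⟮f⟯⟮g⟯).algebraMap_mem ⟨f, mem_adjoin_simple_self K f⟩
      · exact mem_adjoin_simple_self K⟮f⟯ g
      · show w 2 ∈ _
        rw [hw2]
        exact one_mem _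
    have hev : ∀ Q : MvPolynomial (Fin 3) K, aeval w Q ∈ (K⟮f⟯⟮g⟯).restrictScalars K := by
      intro Q
      have := MvPolynomial.aeval_algebraMap_apply (RatFunc K)
        (fun i => (⟨w i, hmem i⟩ : (K⟮f⟯⟮g⟯).restrictScalars K)) Q
      have e : (fun i => algebraMap ((K⟮f⟯⟮g⟯).restrictScalars K) (RatFunc K) ⟨w i, hmem i⟩) = w := by
        funext i
        rfl
      have h3 : aeval w Q = algebraMap ((K⟮f⟯⟮g⟯).restrictScalars K) (RatFunc K)
          (aeval (fun i => (⟨w i, hmem i⟩ : (K⟮f⟯⟮g⟯).restrictScalars K)) Q) := by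
        rw [← this]
        rfl
      rw [h3]
      exact SetLike.coe_mem _
    have hXm : (RatFunc.X : RatFunc K) ∈ (K⟮f⟯⟮g⟯).restrictScalars K := by
      rw [hX]
      exact div_mem (hev F1) (hev F2)
    have h3 : (⊤ : IntermediateField K (RatFunc K)) ≤ (K⟮f⟯⟮g⟯).restrictScalars K := by
      rw [← RatFunc.adjoin_X]
      rw [adjoin_simple_le_iff]
      exact hXm
    rw [eq_top_iff]
    intro z _
    exact h3 (mem_top : z ∈ (⊤ : IntermediateField K (RatFunc K)))
  have hmin : N ≤ (minpoly K⟮f⟯ g).natDegree := by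
    rw [← IntermediateField.adjoin.finrank hgint, htop, IntermediateField.finrank_top']
    exact hfin
  -- transcendence of `f`
  have htr : Transcendental K f := by
    apply RatFunc.transcendental_of_ne_C
    rintro ⟨c, hc1⟩
    rw [RatFunc.finrank_eq_max_natDegree, hc1] at hfin
    simp at hfin
    omega
  let ι : Polynomial K →+* K⟮f⟯ := (Polynomial.aeval (AdjoinSimple.gen K f)).toRingHom
  have hιinj : Function.Injective ι := by
    rw [injective_iff_map_eq_zero]
    intro q hq0
    by_contra hne
    apply htr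
    refine ⟨q, hne, ?_⟩
    have : Polynomial.aeval f q = algebraMap K⟮f⟯ (RatFunc K) (ι q) := by
      show _ = algebraMap K⟮f⟯ (RatFunc K) (Polynomial.aeval (AdjoinSimple.gen K f) q)
      rw [← Polynomial.aeval_algebraMap_apply, AdjoinSimple.algebraMap_gen]
    rw [this, hq0, map_zero]
  have hroot : Polynomial.aeval g ((deh P).map ι) = 0 := by
    rw [← hwP]
    have hcomp : (((Polynomial.aeval g : Polynomial K⟮f⟯ →ₐ[K⟮f⟯] RatFunc K) : Polynomial K⟮f⟯ →+* RatFunc K).comp
        (Polynomial.mapRingHom ι)).comp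
        ((aeval ![Polynomial.C Polynomial.X, Polynomial.X, 1] : MvPolynomial (Fin 3) K →ₐ[K]
          Polynomial (Polynomial K)) : MvPolynomial (Fin 3) K →+* Polynomial (Polynomial K)) =
        ((aeval w : MvPolynomial (Fin 3) K →ₐ[K] RatFunc K) : MvPolynomial (Fin 3) K →+* RatFunc K) := by
      apply MvPolynomial.ringHom_ext
      · intro r
        simp [ι, Polynomial.algebraMap_apply]
      · intro i
        fin_cases i
        · simp [ι]
          rfl
        · simp
          rfl
        · simp [hw2]
    exact congrArg (fun φ : MvPolynomial (Fin 3) K →+* RatFunc K => φ P) hcomp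
  have hdeh : deh P = 0 := by
    by_contra hne
    have h3 : (deh P).map ι ≠ 0 := by
      rwa [Ne, Polynomial.map_eq_zero_iff hιinj]
    have h4 := Polynomial.natDegree_le_of_dvd (minpoly.dvd K⟮f⟯ g hroot) h3
    have h5 := natDegree_deh hP
    have h6 := Polynomial.natDegree_map_le (p := deh P) (f := ι)
    omega
  apply dehom hP
  intro v hv
  have h3 : eval v P = ((deh P).map (Polynomial.evalRingHom (v 0))).eval (v 1) := by
    have hcomp : (Polynomial.evalRingHom (v 1)).comp ((Polynomial.mapRingHom (Polynomial.evalRingHom (v 0))).comp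
        ((aeval ![Polynomial.C Polynomial.X, Polynomial.X, 1] : MvPolynomial (Fin 3) K →ₐ[K]
          Polynomial (Polynomial K)) : MvPolynomial (Fin 3) K →+* Polynomial (Polynomial K))) =
        (eval v : MvPolynomial (Fin 3) K →+* K) := by
      apply MvPolynomial.ringHom_ext
      · intro r
        simp [Polynomial.algebraMap_apply]
      · intro i
        fin_cases i
        · simp
        · simp
        · simpa using hv.symm
    exact (congrArg (fun φ : MvPolynomial (Fin 3) K →+* K => φ P) hcomp).symm
  rw [h3, hdeh, Polynomial.map_zero, Polynomial.eval_zero]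

end Pool.Agent.X316.CC
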