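import Pool.Agent.X316.CC.Deg

/-!
# Plane curves parameterised by a section of an elliptic pencil: Fermat cubics are not rational,
linear forms
-/

set_option autoImplicit false

open MvPolynomial

namespace Pool.Agent.X316.CC

variable {K : Type*} [Field K]

open Polynomial in
/-- solutions of `A x³ + B y³ + D z³ = 0` in polynomials are constant up to a common factor -/
theorem fermat_const (h3 : (3 : K) ≠ 0) (A B D : K) (hA : A ≠ 0) (hB : B ≠ 0) (hD : D ≠ 0)
    (x y z : K[X]) (h : Polynomial.C A * x ^ 3 + Polynomial.C B * y ^ 3 + Polynomial.C D * z ^ 3 = 0) :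
    ∃ (d : K[X]) (a b c : K), x = Polynomial.C a * d ∧ y = Polynomial.C b * d ∧ z = Polynomial.C c * d := by
  classical
  by_cases hx : x = 0 ∧ y = 0
  · obtain ⟨rfl, rfl⟩ := hx
    have hz : z = 0 := by
      have : Polynomial.C D * z ^ 3 = 0 := by linear_combination h
      exact pow_eq_zero_iff (three_ne_zero) |>.1
        ((mul_eq_zero.1 this).resolve_left (Polynomial.C_ne_zero.2 hD))
    exact ⟨0, 0, 0, 0, by simp, by simp, by simp [hz]⟩
  set d := EuclideanDomain.gcd x y with hd
  have hd0 : d ≠ 0 := by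
    rw [hd, Ne, EuclideanDomain.gcd_eq_zero_iff]
    exact hx
  obtain ⟨x', hx'⟩ := EuclideanDomain.gcd_dvd_left x y
  obtain ⟨y', hy'⟩ := EuclideanDomain.gcd_dvd_right x y
  rw [← hd] at hx' hy'
  have hcop : IsCoprime x' y' := by
    have h1 := EuclideanDomain.gcd_eq_gcd_ab x y
    rw [← hd] at h1
    refine ⟨EuclideanDomain.gcdA x y, EuclideanDomain.gcdB x y, ?_⟩
    apply mul_left_cancel₀ hd0
    linear_combination (-EuclideanDomain.gcdA x y) * hx' - EuclideanDomain.gcdB x y * hy' - h1
  have hz : d ∣ z := by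
    have h1 : d ^ 3 ∣ z ^ 3 := by
      have h2 : Polynomial.C D * z ^ 3 = d ^ 3 * (-(Polynomial.C A * x' ^ 3 + Polynomial.C B * y' ^ 3)) := by
        rw [hx', hy'] at h
        linear_combination h
      have h4 : z ^ 3 = d ^ 3 * (Polynomial.C D⁻¹ * (-(Polynomial.C A * x' ^ 3 + Polynomial.C B * y' ^ 3))) := by
        have h5 : Polynomial.C D⁻¹ * Polynomial.C D = (1 : K[X]) := by
          rw [← Polynomial.C_mul, inv_mul_cancel₀ hD, Polynomial.C_1]
        linear_combination (Polynomial.C D⁻¹) * h2 - z ^ 3 * h5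
      exact ⟨_, h4⟩
    exact (IsIntegrallyClosed.pow_dvd_pow_iff (n := 3) (by norm_num)).1 h1
  obtain ⟨z', hz'⟩ := hz
  have h' : Polynomial.C A * x' ^ 3 + Polynomial.C B * y' ^ 3 + Polynomial.C D * z' ^ 3 = 0 := by
    have : d ^ 3 * (Polynomial.C A * x' ^ 3 + Polynomial.C B * y' ^ 3 + Polynomial.C D * z' ^ 3) = 0 := by
      rw [← h, hx', hy', hz']; ring
    exact (mul_eq_zero.1 this).resolve_left (pow_ne_zero 3 hd0)
  have key : x'.natDegree = 0 ∧ y'.natDegree = 0 ∧ z'.natDegree = 0 := by
    by_cases x0 : x' = 0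
    · rw [x0] at hcop h'
      have hu : IsUnit y' := isCoprime_zero_left.1 hcop
      have hy0 := natDegree_eq_zero_of_isUnit hu
      refine ⟨by rw [x0, natDegree_zero], hy0, ?_⟩
      obtain ⟨b, hb⟩ := natDegree_eq_zero.1 hy0
      have h6 : (Polynomial.C D * z' ^ 3).natDegree = 0 := by
        have : Polynomial.C D * z' ^ 3 = Polynomial.C (-(B * b ^ 3)) := by
          rw [← hb] at h'
          rw [Polynomial.C_neg, Polynomial.C_mul, Polynomial.C_pow]
          linear_combination h'
        rw [this, natDegree_C]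
      rw [natDegree_C_mul hD, natDegree_pow] at h6
      omega
    by_cases y0 : y' = 0
    · rw [y0] at hcop h'
      have hu : IsUnit x' := isCoprime_zero_right.1 hcop
      have hy0 := natDegree_eq_zero_of_isUnit hu
      refine ⟨hy0, by rw [y0, natDegree_zero], ?_⟩
      obtain ⟨b, hb⟩ := natDegree_eq_zero.1 hy0
      have h6 : (Polynomial.C D * z' ^ 3).natDegree = 0 := by
        have : Polynomial.C D * z' ^ 3 = Polynomial.C (-(A * b ^ 3)) := by
          rw [← hb] at h'
          rw [Polynomial.C_neg, Polynomial.C_mul, Polynomial.C_pow]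
          linear_combination h'
        rw [this, natDegree_C]
      rw [natDegree_C_mul hD, natDegree_pow] at h6
      omega
    by_cases z0 : z' = 0
    · rw [z0] at h'
      have h7 : x' ^ 3 ∣ y' ^ 3 := by
        refine ⟨Polynomial.C (-(A / B)), ?_⟩
        have h5 : Polynomial.C B⁻¹ * Polynomial.C B = (1 : K[X]) := by
          rw [← Polynomial.C_mul, inv_mul_cancel₀ hB, Polynomial.C_1]
        rw [div_eq_mul_inv, Polynomial.C_neg, Polynomial.C_mul]
        linear_combination (Polynomial.C B⁻¹) * h' - y' ^ 3 * h5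
      have h8 : x' ∣ y' := (IsIntegrallyClosed.pow_dvd_pow_iff (n := 3) (by norm_num)).1 h7
      have hu : IsUnit x' := hcop.isUnit_of_dvd' dvd_rfl h8
      have hx0 := natDegree_eq_zero_of_isUnit hu
      refine ⟨hx0, ?_, by rw [z0, natDegree_zero]⟩
      obtain ⟨b, hb⟩ := natDegree_eq_zero.1 hx0
      have h6 : (Polynomial.C B * y' ^ 3).natDegree = 0 := by
        have : Polynomial.C B * y' ^ 3 = Polynomial.C (-(A * b ^ 3)) := by
          rw [← hb] at h'
          rw [Polynomial.C_neg, Polynomial.C_mul, Polynomial.C_pow]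
          linear_combination h'
        rw [this, natDegree_C]
      rw [natDegree_C_mul hB, natDegree_pow] at h6
      omega
    have hn3 : ((3 : ℕ) : K) ≠ 0 := by exact_mod_cast h3
    exact Polynomial.flt_catalan (by norm_num) (by norm_num) (by norm_num) (by norm_num)
      hn3 hn3 hn3 x0 y0 z0 hcop hA hB hD h'
  obtain ⟨k1, k2, k3⟩ := key
  obtain ⟨a, ha⟩ := natDegree_eq_zero.1 k1
  obtain ⟨b, hb⟩ := natDegree_eq_zero.1 k2
  obtain ⟨c, hc⟩ := natDegree_eq_zero.1 k3
  exact ⟨d, a, b, c, by rw [hx', ← ha, mul_comm], by rw [hy', ← hb, mul_comm],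
    by rw [hz', ← hc, mul_comm]⟩

/-- linear forms -/
theorem hom_one {n : ℕ} {P : MvPolynomial (Fin n) K} (hP : P.IsHomogeneous 1) :
    P = ∑ i, C (coeff (Finsupp.single i 1) P) * X i := by
  ext d
  rw [coeff_sum]
  simp only [coeff_C_mul, coeff_X]
  by_cases hd : d.degree = 1
  · obtain ⟨i, hi⟩ : ∃ i, d = Finsupp.single i 1 := by
      have h1 : d ∈ Set.range (fun a : Fin n => Finsupp.single a 1) := by
        rw [Finsupp.range_single_one]
        exact hd
      obtain ⟨i, hi⟩ := h1
      exact ⟨i, hi.symm⟩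
    subst hi
    rw [Finset.sum_eq_single i]
    · simp
    · intro j _ hj
      rw [if_neg, mul_zero]
      intro h
      exact hj (Finsupp.single_left_injective one_ne_zero h)
    · intro h
      exact absurd (Finset.mem_univ i) h
  · rw [hP.coeff_eq_zero hd]
    symm
    refine Finset.sum_eq_zero fun i _ => ?_
    rw [if_neg, mul_zero]
    rintro rfl
    apply hd
    simp

theorem aeval_hom_one {n : ℕ} {P : MvPolynomial (Fin n) K} (hP : P.IsHomogeneous 1)
    {A : Type*} [CommRing A] [Algebra K A] (v : Fin n → A) :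
    aeval v P = ∑ i, algebraMap K A (coeff (Finsupp.single i 1) P) * v i := by
  conv_lhs => rw [hom_one hP]
  simp

/-- two linear forms in three variables have a common zero -/
theorem common_zero {l0 l1 : MvPolynomial (Fin 3) K} (h0 : l0.IsHomogeneous 1)
    (h1 : l1.IsHomogeneous 1) : ∃ e : Fin 3 → K, e ≠ 0 ∧ eval e l0 = 0 ∧ eval e l1 = 0 := by
  let f : (Fin 3 → K) →ₗ[K] (Fin 2 → K) := LinearMap.pi
    ![∑ i, (coeff (Finsupp.single i 1) l0) • LinearMap.proj i,
      ∑ i, (coeff (Finsupp.single i 1) l1) • LinearMap.proj i]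
  have hk : LinearMap.ker f ≠ ⊥ := LinearMap.ker_ne_bot_of_finrank_lt (by simp)
  obtain ⟨e, he, hne⟩ := (Submodule.ne_bot_iff _).1 hk
  refine ⟨e, hne, ?_, ?_⟩
  · have := congrFun (LinearMap.mem_ker.1 he) 0
    rw [← aeval_eq_eval, aeval_hom_one h0]
    simpa [f] using this
  · have := congrFun (LinearMap.mem_ker.1 he) 1
    rw [← aeval_eq_eval, aeval_hom_one h1]
    simpa [f] using this

end Pool.Agent.X316.CC
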