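import Mathlib

/-!
# Plane curves parameterised by a section of an elliptic pencil: general lemmas
-/

set_option autoImplicit false

open MvPolynomial

namespace Pool.Agent.X316.CC

variable {K : Type*} [Field K]

theorem hom_aeval {σ A : Type*} [CommRing A] [Algebra K A] {P : MvPolynomial σ K} {m : ℕ}
    (hP : P.IsHomogeneous m) (r : A) (v : σ → A) :
    aeval (fun i => r * v i) P = r ^ m * aeval v P := by
  rw [aeval_def, aeval_def, eval₂_eq, eval₂_eq, Finset.mul_sum]
  apply Finset.sum_congr rfl
  intro d hd
  have h : d.degree = m := by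
    by_contra h
    exact (mem_support_iff.1 hd) (hP.coeff_eq_zero h)
  have h' : ∑ i ∈ d.support, d i = m := h
  simp only [mul_pow, Finset.prod_mul_distrib, Finset.prod_pow_eq_pow_sum]
  rw [h']; ring

theorem hom_eval {σ : Type*} {P : MvPolynomial σ K} {m : ℕ}
    (hP : P.IsHomogeneous m) (r : K) (v : σ → K) :
    eval (r • v) P = r ^ m * eval v P := by
  have := hom_aeval (A := K) hP r v
  rw [aeval_eq_eval] at this
  exact this

/-- a form vanishing on the affine plane where the last coordinate is one vanishes -/
theorem dehom [Infinite K] {n m : ℕ} {P : MvPolynomial (Fin (n + 1)) K} (hP : P.IsHomogeneous m)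
    (h : ∀ v : Fin (n + 1) → K, v (Fin.last n) = 1 → eval v P = 0) : P = 0 := by
  have h1 : P * X (Fin.last n) = 0 := by
    apply MvPolynomial.funext
    intro v
    rw [map_mul, eval_X, map_zero]
    by_cases hv : v (Fin.last n) = 0
    · rw [hv, mul_zero]
    · have h2 : v = v (Fin.last n) • ((v (Fin.last n))⁻¹ • v) := by
        rw [smul_smul, mul_inv_cancel₀ hv, one_smul]
      have h3 : eval v P = 0 := by
        rw [h2, hom_eval hP, h, mul_zero]
        simp [hv]
      rw [h3, zero_mul]
  exact (mul_eq_zero.1 h1).resolve_right (X_ne_zero _)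

/-- the ring homomorphism `x_i ↦ s c_i(t)` -/
noncomputable def Phi {σ : Type*} (cc : σ → Polynomial K) :
    MvPolynomial σ K →ₐ[K] Polynomial (Polynomial K) :=
  aeval fun i => Polynomial.X * Polynomial.C (cc i)

theorem aeval_C_comp {σ : Type*} (cc : σ → Polynomial K) (P : MvPolynomial σ K) :
    aeval (fun i => Polynomial.C (cc i)) P = Polynomial.C (aeval cc P) := by
  have h : (aeval (fun i => Polynomial.C (cc i)) : MvPolynomial σ K →ₐ[K] Polynomial (Polynomial K))
      = (Polynomial.CAlgHom : Polynomial K →ₐ[K] Polynomial (Polynomial K)).comp (aeval cc) := by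
    apply MvPolynomial.algHom_ext
    intro i
    simp
  rw [h]
  rfl

theorem Phi_hom {σ : Type*} (cc : σ → Polynomial K) {P : MvPolynomial σ K} {m : ℕ}
    (hP : P.IsHomogeneous m) : Phi cc P = Polynomial.X ^ m * Polynomial.C (aeval cc P) := by
  rw [Phi, hom_aeval hP, aeval_C_comp]

theorem Phi_coeff {σ : Type*} (cc : σ → Polynomial K) (P : MvPolynomial σ K) (m : ℕ) :
    (Phi cc P).coeff m = aeval cc (homogeneousComponent m P) := by
  conv_lhs => rw [← sum_homogeneousComponent P]
  rw [map_sum, Polynomial.finsetSum_coeff]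
  have h : ∀ i, (Phi cc (homogeneousComponent i P)).coeff m =
      if i = m then aeval cc (homogeneousComponent m P) else 0 := by
    intro i
    rw [Phi_hom cc (homogeneousComponent_isHomogeneous i P), Polynomial.coeff_X_pow_mul']
    split_ifs with h1 h2 h2
    · subst h2
      rw [Nat.sub_self, Polynomial.coeff_C_zero]
    · rw [Polynomial.coeff_C]
      rw [if_neg (by omega)]
    · omega
    · rfl
  simp only [h]
  rw [Finset.sum_ite_eq']
  split_ifs with h3
  · rfl
  · rw [homogeneousComponent_eq_zero]
    · simp
    · rw [Finset.mem_range] at h3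
      omega

theorem Phi_eq_zero_iff {σ : Type*} (cc : σ → Polynomial K) {P : MvPolynomial σ K} {m : ℕ}
    (hP : P.IsHomogeneous m) : Phi cc P = 0 ↔ aeval cc P = 0 := by
  rw [Phi_hom cc hP, mul_eq_zero]
  constructor
  · rintro (h | h)
    · exact absurd h (pow_ne_zero _ Polynomial.X_ne_zero)
    · exact Polynomial.C_eq_zero.1 h
  · intro h
    right
    rw [h, Polynomial.C_0]

/-- kernels of evaluations at an element over an injection are principal -/
theorem ker_principal {R S : Type*} [CommRing R] [IsDomain R] [NormalizedGCDMonoid R]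
    [CommRing S] [IsDomain S] (g : R →+* S) (hg : Function.Injective g) (z : S)
    (E P : Polynomial R) (hE : Irreducible E) (hE0 : E.eval₂ g z = 0) (hP : P.eval₂ g z = 0) :
    E ∣ P := by
  let Q := FractionRing R
  let M := FractionRing S
  let j : R →+* M := (algebraMap S M).comp g
  have hj : Function.Injective j := (IsFractionRing.injective S M).comp hg
  let J : Q →+* M := IsFractionRing.lift hj
  have hJ : ∀ r, J (algebraMap R Q r) = j r := fun r => IsFractionRing.lift_algebraMap hj r
  have hdeg : 0 < E.natDegree := by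
    rw [Nat.pos_iff_ne_zero]
    intro h0
    rw [Polynomial.eq_C_of_natDegree_eq_zero h0, Polynomial.eval₂_C] at hE0
    have h1 : E.coeff 0 = 0 := hg (by rw [hE0, map_zero])
    rw [Polynomial.eq_C_of_natDegree_eq_zero h0, h1, Polynomial.C_0] at hE
    exact not_irreducible_zero hE
  have hprim : E.IsPrimitive := hE.isPrimitive hdeg.ne'
  have hirr : Irreducible (E.map (algebraMap R Q)) :=
    hprim.irreducible_iff_irreducible_map_fraction_map.1 hE
  have hev : ∀ T : Polynomial R, (T.map (algebraMap R Q)).eval₂ J (algebraMap S M z) =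
      algebraMap S M (T.eval₂ g z) := by
    intro T
    rw [Polynomial.eval₂_map, Polynomial.hom_eval₂]
    congr 1
    ext r
    exact hJ r
  algebraize [J]
  have hev' : ∀ T : Polynomial R, Polynomial.aeval (algebraMap S M z) (T.map (algebraMap R Q)) =
      algebraMap S M (T.eval₂ g z) := hev
  have h1 : minpoly Q (algebraMap S M z) ∣ E.map (algebraMap R Q) :=
    minpoly.dvd Q _ (by rw [hev', hE0, map_zero])
  have h2 : minpoly Q (algebraMap S M z) ∣ P.map (algebraMap R Q) :=
    minpoly.dvd Q _ (by rw [hev', hP, map_zero])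
  have hint : IsIntegral Q (algebraMap S M z) := by
    rw [← isAlgebraic_iff_isIntegral]
    exact ⟨_, hirr.ne_zero, by rw [hev', hE0, map_zero]⟩
  have h3 : Associated (minpoly Q (algebraMap S M z)) (E.map (algebraMap R Q)) := by
    refine (hirr.dvd_iff.1 h1).resolve_left ?_ |>.symm
    exact (minpoly.irreducible hint).not_isUnit
  apply hprim.dvd_of_fraction_map_dvd_fraction_map (K := Q)
  exact h3.symm.dvd.trans h2

end Pool.Agent.X316.CC
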