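import Pool.Agent.X316.CC.Top

/-!
# A section of degree eight of the pencil `x³ - t y³ = (1 - t) z³`
-/

set_option autoImplicit false

open MvPolynomial

namespace Pool.Agent.X316.CC

variable {K : Type*} [Field K]

/-- coefficients of the section (times a fixed eighth power) -/
def co : Fin 3 → Fin 9 → ℤ :=
  ![![-1, 25, -40, -65, 275, -305, 125, -20, 5], ![5, -20, 125, -305, 275, -65, -40, 25, -1],
    ![-1, -17, 107, -164, 155, -164, 107, -17, -1]]

/-- the binary forms of degree eight -/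
noncomputable def U (i : Fin 3) : MvPolynomial (Fin 2) K :=
  ∑ j : Fin 9, C ((co i j : ℤ) : K) * (X 0 ^ (j : ℕ) * X 1 ^ (8 - (j : ℕ)))

/-- the section -/
noncomputable def cc (i : Fin 3) : Polynomial K :=
  ∑ j : Fin 9, Polynomial.C ((co i j : ℤ) : K) * Polynomial.X ^ (j : ℕ)

theorem U_hom (i : Fin 3) : (U (K := K) i).IsHomogeneous 8 := by
  apply IsHomogeneous.sum
  intro j _
  have h1 : (X 0 ^ (j : ℕ) * X 1 ^ (8 - (j : ℕ)) : MvPolynomial (Fin 2) K).IsHomogeneous 8 := by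
    have a := (isHomogeneous_X K (0 : Fin 2)).pow (j : ℕ)
    have b := (isHomogeneous_X K (1 : Fin 2)).pow (8 - (j : ℕ))
    have c := a.mul b
    have e : 1 * (j : ℕ) + 1 * (8 - (j : ℕ)) = 8 := by have := j.2; omega
    rwa [e] at c
  have := (isHomogeneous_C (Fin 2) ((co i j : ℤ) : K)).mul h1
  rwa [zero_add] at this

theorem aeval_U (i : Fin 3) :
    aeval ![(Polynomial.X : Polynomial K), 1] (U (K := K) i) = cc i := by
  simp [U, cc, map_sum]

theorem cc_zero : (cc 0 : Polynomial K) = 5 * Polynomial.X ^ 8 - 20 * Polynomial.X ^ 7 +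
    125 * Polynomial.X ^ 6 - 305 * Polynomial.X ^ 5 + 275 * Polynomial.X ^ 4 -
    65 * Polynomial.X ^ 3 - 40 * Polynomial.X ^ 2 + 25 * Polynomial.X - 1 := by
  simp [cc, Fin.sum_univ_succ, co]
  ring

theorem cc_one : (cc 1 : Polynomial K) = - Polynomial.X ^ 8 + 25 * Polynomial.X ^ 7 -
    40 * Polynomial.X ^ 6 - 65 * Polynomial.X ^ 5 + 275 * Polynomial.X ^ 4 -
    305 * Polynomial.X ^ 3 + 125 * Polynomial.X ^ 2 - 20 * Polynomial.X + 5 := by
  simp [cc, Fin.sum_univ_succ, co]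
  ring

theorem cc_two : (cc 2 : Polynomial K) = - Polynomial.X ^ 8 - 17 * Polynomial.X ^ 7 +
    107 * Polynomial.X ^ 6 - 164 * Polynomial.X ^ 5 + 155 * Polynomial.X ^ 4 -
    164 * Polynomial.X ^ 3 + 107 * Polynomial.X ^ 2 - 17 * Polynomial.X - 1 := by
  simp [cc, Fin.sum_univ_succ, co]
  ring

theorem cc_pencil : (cc 0 : Polynomial K) ^ 3 - cc 2 ^ 3 =
    Polynomial.X * (cc 1 ^ 3 - cc 2 ^ 3) := by
  rw [cc_zero, cc_one, cc_two]
  ring

theorem cc_bezout : (-48887 + 647545 * Polynomial.X - 1116765 * Polynomial.X ^ 2 +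
      1037270 * Polynomial.X ^ 3 - 1119925 * Polynomial.X ^ 4 + 821025 * Polynomial.X ^ 5 -
      138320 * Polynomial.X ^ 6 - 8015 * Polynomial.X ^ 7) * (cc 0 : Polynomial K) +
    (-128260 + 310700 * Polynomial.X + 255150 * Polynomial.X ^ 2 - 1738550 * Polynomial.X ^ 3 +
      2209225 * Polynomial.X ^ 4 - 967950 * Polynomial.X ^ 5 + 149975 * Polynomial.X ^ 6 -
      40075 * Polynomial.X ^ 7) * cc 2 = 3 ^ 11 := by
  rw [cc_zero, cc_two]
  ring

theorem natDegree_cc_two : (cc 2 : Polynomial K).natDegree = 8 := by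
  rw [cc_two]
  compute_degree!

theorem cc_coprime (h3 : (3 : K) ≠ 0) : IsCoprime (cc 0 : Polynomial K) (cc 2) := by
  have h4 : (Polynomial.C ((3 : K) ^ 11)⁻¹ * 3 ^ 11 : Polynomial K) = 1 := by
    have : (3 ^ 11 : Polynomial K) = Polynomial.C ((3 : K) ^ 11) := by
      rw [Polynomial.C_pow]
      congr 1
    rw [this, ← Polynomial.C_mul, inv_mul_cancel₀ (pow_ne_zero _ h3), Polynomial.C_1]
  refine ⟨Polynomial.C ((3 : K) ^ 11)⁻¹ * (-48887 + 647545 * Polynomial.X -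
    1116765 * Polynomial.X ^ 2 +
      1037270 * Polynomial.X ^ 3 - 1119925 * Polynomial.X ^ 4 + 821025 * Polynomial.X ^ 5 -
      138320 * Polynomial.X ^ 6 - 8015 * Polynomial.X ^ 7), Polynomial.C ((3 : K) ^ 11)⁻¹ *
      (-128260 + 310700 * Polynomial.X + 255150 * Polynomial.X ^ 2 - 1738550 * Polynomial.X ^ 3 +
      2209225 * Polynomial.X ^ 4 - 967950 * Polynomial.X ^ 5 + 149975 * Polynomial.X ^ 6 -
      40075 * Polynomial.X ^ 7), ?_⟩
  rw [← h4, ← cc_bezout]
  ring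

theorem cc_not_prop (h3 : (3 : K) ≠ 0) : ¬ ∃ c : K, (cc 1 : Polynomial K) = Polynomial.C c * cc 2 := by
  rintro ⟨c, hc⟩
  have e8 := congrArg (fun p => Polynomial.coeff p 8) hc
  have e1 := congrArg (fun p => Polynomial.coeff p 1) hc
  simp only [cc, Polynomial.coeff_C_mul, Polynomial.finsetSum_coeff, Polynomial.coeff_X_pow] at e8 e1
  simp [Fin.sum_univ_succ, co] at e8 e1
  apply h3
  linear_combination e1 - 17 * e8

end Pool.Agent.X316.CC
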