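import Pool.Agent.X316.CC.Fermat

/-!
# Plane curves parameterised by a section of an elliptic pencil: generation of the function field
-/

set_option autoImplicit false

open MvPolynomial IntermediateField

namespace Pool.Agent.X316.CC

variable {K : Type*} [Field K]

/-- a subfield of `K(t)` containing the ratios of polynomials from which `t` can be recovered -/
theorem top_of_mem {n : ℕ} (N : Fin n → Polynomial K) (j : Fin n) (hNj : N j ≠ 0)
    (Q1 Q2 : MvPolynomial (Fin n) K) (k : ℕ) (h1 : Q1.IsHomogeneous k) (h2 : Q2.IsHomogeneous k)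
    (hQ : aeval N Q1 = Polynomial.X * aeval N Q2) (hQ2 : aeval N Q2 ≠ 0)
    (S : IntermediateField K (RatFunc K))
    (hS : ∀ i, algebraMap (Polynomial K) (RatFunc K) (N i) /
      algebraMap (Polynomial K) (RatFunc K) (N j) ∈ S) : S = ⊤ := by
  have hinj := IsFractionRing.injective (Polynomial K) (RatFunc K)
  have hc' : algebraMap (Polynomial K) (RatFunc K) (N j) ≠ 0 := by
    rwa [Ne, map_eq_zero_iff _ hinj]
  obtain ⟨w, hw⟩ : ∃ w : Fin n → RatFunc K, w = fun i =>
    algebraMap (Polynomial K) (RatFunc K) (N i) / algebraMap (Polynomial K) (RatFunc K) (N j) :=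
    ⟨_, rfl⟩
  have hq : ∀ {m : ℕ} {Q : MvPolynomial (Fin n) K}, Q.IsHomogeneous m →
      algebraMap (Polynomial K) (RatFunc K) (aeval N Q) =
        algebraMap (Polynomial K) (RatFunc K) (N j) ^ m * aeval w Q := by
    intro m Q hQ
    rw [hw]
    exact aeval_quot hQ N (N j) hNj
  have hwF2 : aeval w Q2 ≠ 0 := by
    intro h
    have := hq h2
    rw [h, mul_zero] at this
    exact hQ2 (hinj (by rw [this, map_zero]))
  have hX : (RatFunc.X : RatFunc K) = aeval w Q1 / aeval w Q2 := by
    rw [eq_div_iff hwF2]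
    have e1 := hq h1
    have e2 := hq h2
    rw [hQ, map_mul, e2, RatFunc.algebraMap_X] at e1
    have e3 : algebraMap (Polynomial K) (RatFunc K) (N j) ^ k *
        (RatFunc.X * aeval w Q2 - aeval w Q1) = 0 := by
      linear_combination e1
    exact sub_eq_zero.1 ((mul_eq_zero.1 e3).resolve_left (pow_ne_zero _ hc'))
  have hmem : ∀ i, w i ∈ S := by
    intro i
    rw [hw]
    exact hS i
  have hev : ∀ Q : MvPolynomial (Fin n) K, aeval w Q ∈ S := by
    intro Q
    have := MvPolynomial.aeval_algebraMap_apply (RatFunc K) (fun i => (⟨w i, hmem i⟩ : S)) Q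
    have h3 : aeval w Q = algebraMap S (RatFunc K) (aeval (fun i => (⟨w i, hmem i⟩ : S)) Q) := by
      rw [← this]
      rfl
    rw [h3]
    exact SetLike.coe_mem _
  have hXm : (RatFunc.X : RatFunc K) ∈ S := by
    rw [hX]
    exact div_mem (hev Q1) (hev Q2)
  rw [eq_top_iff, ← RatFunc.adjoin_X, adjoin_simple_le_iff]
  exact hXm

/-- ratios generating `K(t)` are Möbius transformations -/
theorem moebius (N : Fin 2 → Polynomial K) (hN1 : N 1 ≠ 0)
    (Q1 Q2 : MvPolynomial (Fin 2) K) (k : ℕ) (h1 : Q1.IsHomogeneous k) (h2 : Q2.IsHomogeneous k)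
    (hQ : aeval N Q1 = Polynomial.X * aeval N Q2) (hQ2 : aeval N Q2 ≠ 0) :
    ∃ α β γ δ : K, (Polynomial.C α * Polynomial.X + Polynomial.C β) * N 1 =
        (Polynomial.C γ * Polynomial.X + Polynomial.C δ) * N 0 ∧
      (α ≠ 0 ∨ γ ≠ 0) ∧ (β ≠ 0 ∨ δ ≠ 0) ∧ (α + β ≠ 0 ∨ γ + δ ≠ 0) := by
  set f : RatFunc K := algebraMap (Polynomial K) (RatFunc K) (N 0) /
      algebraMap (Polynomial K) (RatFunc K) (N 1) with hf
  have hinj := IsFractionRing.injective (Polynomial K) (RatFunc K)
  have hc' : algebraMap (Polynomial K) (RatFunc K) (N 1) ≠ 0 := by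
    rwa [Ne, map_eq_zero_iff _ hinj]
  have htop : K⟮f⟯ = ⊤ := by
    apply top_of_mem N 1 hN1 Q1 Q2 k h1 h2 hQ hQ2
    intro i
    fin_cases i
    · exact mem_adjoin_simple_self K f
    · show algebraMap (Polynomial K) (RatFunc K) (N 1) /
        algebraMap (Polynomial K) (RatFunc K) (N 1) ∈ _
      rw [div_self hc']
      exact one_mem _
  have hmax : max f.num.natDegree f.denom.natDegree = 1 := by
    rw [← RatFunc.finrank_eq_max_natDegree, htop]
    exact IntermediateField.finrank_top
  have h := (RatFunc.num_mul_eq_mul_denom_iff (x := f) hN1).2 hf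
  have hcop := RatFunc.isCoprime_num_denom f
  obtain ⟨α, β, hnum⟩ := Polynomial.exists_eq_X_add_C_of_natDegree_le_one
    ((le_max_left _ _).trans hmax.le)
  obtain ⟨γ, δ, hden⟩ := Polynomial.exists_eq_X_add_C_of_natDegree_le_one
    ((le_max_right _ _).trans hmax.le)
  obtain ⟨r, s, hrs⟩ := hcop
  refine ⟨α, β, γ, δ, ?_, ?_, ?_, ?_⟩
  · rw [← hnum, ← hden, h, mul_comm]
  · by_contra hcon
    push Not at hcon
    rw [hnum, hden, hcon.1, hcon.2] at hmax
    simp at hmax
  · by_contra hcon
    push Not at hcon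
    have := congrArg (Polynomial.eval 0) hrs
    rw [hnum, hden, hcon.1, hcon.2] at this
    simp at this
  · by_contra hcon
    push Not at hcon
    have := congrArg (Polynomial.eval 1) hrs
    rw [hnum, hden] at this
    simp [hcon.1, hcon.2] at this

end Pool.Agent.X316.CC
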